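import Mathlib
import Pool.Agent.Lib_helper33.ExtShift.Stmt

/-!
# MP_47a6f3_co: matroidal hypergraphs under exterior shifting are initial lex-segments

Full (positive) answer to Q1, for every field, every `n`, every `k` and every `k`-uniform
hypergraph `H` (shiftedness of `H` is not needed).
-/

namespace Pool.Agent.Results.MP_47a6f3_co.MatroidalIsLexSegment

open Pool.Agent.H33.ExtShift

universe u

theorem result (F : Type u) [Field F] (n k : ℕ) (H : Set (KSet n k))
    (hH : Matroidal (genericVec F n) H) : IsInitialLexSegment H :=
  initial_of_matroidal' H hH

end Pool.Agent.Results.MP_47a6f3_co.MatroidalIsLexSegment
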